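import Pool.Agent.helper34.MO.SpecB

/-! Row mo:N3: the environment at (a, c) with b and the test ear w eliminated -/

set_option autoImplicit false

open Complex Finset

namespace Pool.Agent.MO

lemma N3_44 (A B C U W m ac au cu : ℂ) :
    sch (G5 A B C U W m ac (-I) au cu (-I) (-I)) 1 4 4 = W + 1 / B := by
  show W - (-I) * (-I) / B = W + 1 / B
  rw [neg_mul_neg, I_mul_I]
  ring

lemma N3_00 (A B C U W m ac au cu : ℂ) :
    sch (sch (G5 A B C U W m ac (-I) au cu (-I) (-I)) 1) 4 0 0 =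
      A - m ^ 2 / B - (I * m / B) ^ 2 / (W + 1 / B) := by
  unfold sch
  rw [show (G5 A B C U W m ac (-I) au cu (-I) (-I)) 4 4 - (G5 A B C U W m ac (-I) au cu (-I) (-I)) 4 1 *
    (G5 A B C U W m ac (-I) au cu (-I) (-I)) 1 4 / (G5 A B C U W m ac (-I) au cu (-I) (-I)) 1 1 = W + 1 / B from
    N3_44 A B C U W m ac au cu]
  show A - m * m / B - (0 - m * (-I) / B) * (0 - (-I) * m / B) / (W + 1 / B) = _
  ring

lemma N3_22 (A B C U W m ac au cu : ℂ) :
    sch (sch (G5 A B C U W m ac (-I) au cu (-I) (-I)) 1) 4 2 2 =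
      C + 1 / B - (-I + 1 / B) ^ 2 / (W + 1 / B) := by
  unfold sch
  rw [show (G5 A B C U W m ac (-I) au cu (-I) (-I)) 4 4 - (G5 A B C U W m ac (-I) au cu (-I) (-I)) 4 1 *
    (G5 A B C U W m ac (-I) au cu (-I) (-I)) 1 4 / (G5 A B C U W m ac (-I) au cu (-I) (-I)) 1 1 = W + 1 / B from
    N3_44 A B C U W m ac au cu]
  show C - (-I) * (-I) / B - (-I - (-I) * (-I) / B) * (-I - (-I) * (-I) / B) / (W + 1 / B) = _
  rw [neg_mul_neg, I_mul_I]
  ring

lemma N3_02 (A B C U W m ac au cu : ℂ) :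
    sch (sch (G5 A B C U W m ac (-I) au cu (-I) (-I)) 1) 4 0 2 =
      ac + I * m / B - (I * m / B) * (-I + 1 / B) / (W + 1 / B) := by
  unfold sch
  rw [show (G5 A B C U W m ac (-I) au cu (-I) (-I)) 4 4 - (G5 A B C U W m ac (-I) au cu (-I) (-I)) 4 1 *
    (G5 A B C U W m ac (-I) au cu (-I) (-I)) 1 4 / (G5 A B C U W m ac (-I) au cu (-I) (-I)) 1 1 = W + 1 / B from
    N3_44 A B C U W m ac au cu]
  show ac - m * (-I) / B - (0 - m * (-I) / B) * (-I - (-I) * (-I) / B) / (W + 1 / B) = _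
  rw [neg_mul_neg, I_mul_I]
  ring

lemma N3_20 (A B C U W m ac au cu : ℂ) :
    sch (sch (G5 A B C U W m ac (-I) au cu (-I) (-I)) 1) 4 2 0 =
      ac + I * m / B - (I * m / B) * (-I + 1 / B) / (W + 1 / B) := by
  unfold sch
  rw [show (G5 A B C U W m ac (-I) au cu (-I) (-I)) 4 4 - (G5 A B C U W m ac (-I) au cu (-I) (-I)) 4 1 *
    (G5 A B C U W m ac (-I) au cu (-I) (-I)) 1 4 / (G5 A B C U W m ac (-I) au cu (-I) (-I)) 1 1 = W + 1 / B from
    N3_44 A B C U W m ac au cu]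
  show ac - (-I) * m / B - (-I - (-I) * (-I) / B) * (0 - (-I) * m / B) / (W + 1 / B) = _
  rw [neg_mul_neg, I_mul_I]
  ring

lemma N3_3 (A B C U W m ac au cu : ℂ) :
    sch (sch (G5 A B C U W m ac (-I) au cu (-I) (-I)) 1) 4 3 3 = U ∧
    sch (sch (G5 A B C U W m ac (-I) au cu (-I) (-I)) 1) 4 0 3 = au ∧
    sch (sch (G5 A B C U W m ac (-I) au cu (-I) (-I)) 1) 4 3 0 = au ∧
    sch (sch (G5 A B C U W m ac (-I) au cu (-I) (-I)) 1) 4 2 3 = cu ∧
    sch (sch (G5 A B C U W m ac (-I) au cu (-I) (-I)) 1) 4 3 2 = cu := by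
  unfold sch
  rw [show (G5 A B C U W m ac (-I) au cu (-I) (-I)) 4 4 - (G5 A B C U W m ac (-I) au cu (-I) (-I)) 4 1 *
    (G5 A B C U W m ac (-I) au cu (-I) (-I)) 1 4 / (G5 A B C U W m ac (-I) au cu (-I) (-I)) 1 1 = W + 1 / B from
    N3_44 A B C U W m ac au cu]
  refine ⟨?_, ?_, ?_, ?_, ?_⟩
  · show U - 0 * 0 / B - (0 - 0 * (-I) / B) * (0 - (-I) * 0 / B) / (W + 1 / B) = U
    ring
  · show au - m * 0 / B - (0 - m * (-I) / B) * (0 - (-I) * 0 / B) / (W + 1 / B) = au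
    ring
  · show au - 0 * m / B - (0 - 0 * (-I) / B) * (0 - (-I) * m / B) / (W + 1 / B) = au
    ring
  · show cu - (-I) * 0 / B - (-I - (-I) * (-I) / B) * (0 - (-I) * 0 / B) / (W + 1 / B) = cu
    ring
  · show cu - 0 * (-I) / B - (0 - 0 * (-I) / B) * (-I - (-I) * (-I) / B) / (W + 1 / B) = cu
    ring

/-- elimination of b and w, four indices -/
lemma N3_elim4 (hPHS : PHS_stmt) (hEV : EV_stmt) (hA2P : A2P_stmt) (A B C U W m ac au cu : ℂ)
    (h : AccS (G5 A B C U W m ac (-I) au cu (-I) (-I)) {0, 1, 2, 4}) :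
    Acc2 (A - m ^ 2 / B - (I * m / B) ^ 2 / (W + 1 / B)) (C + 1 / B - (-I + 1 / B) ^ 2 / (W + 1 / B))
      (ac + I * m / B - (I * m / B) * (-I + 1 / B) / (W + 1 / B)) ∧
    phS (G5 A B C U W m ac (-I) au cu (-I) (-I)) {0, 1, 2, 4} = arg B + arg (W + 1 / B) +
      ph2 (A - m ^ 2 / B - (I * m / B) ^ 2 / (W + 1 / B)) (C + 1 / B - (-I + 1 / B) ^ 2 / (W + 1 / B))
      (ac + I * m / B - (I * m / B) * (-I + 1 / B) / (W + 1 / B)) := by
  have e1 : ({0, 1, 2, 4} : Finset ℕ) = insert 1 {0, 2, 4} := by decide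
  have e2 : ({0, 2, 4} : Finset ℕ) = insert 4 {0, 2} := by decide
  rw [e1] at h ⊢
  obtain ⟨_, h2, h3, _⟩ := hPHS _ {0, 2, 4} 1 (by decide) h
  rw [e2] at h2
  obtain ⟨_, h5, h6, _⟩ := hPHS _ {0, 2} 4 (by decide) h2
  rw [N3_44] at h6
  have hsym : sch (sch (G5 A B C U W m ac (-I) au cu (-I) (-I)) 1) 4 0 2 =
      sch (sch (G5 A B C U W m ac (-I) au cu (-I) (-I)) 1) 4 2 0 := by rw [N3_02, N3_20]
  have h7 := (hA2P.2 _ 0 2 (by decide) hsym).1 h5
  have h8 := hEV.1 _ 0 2 (by decide) hsym h5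
  rw [N3_00, N3_22, N3_02] at h7 h8
  refine ⟨h7, ?_⟩
  rw [h3, e2, h6, h8]
  show arg B + _ = _
  ring

/-- elimination of b and w, five indices -/
lemma N3_elim5 (hPHS : PHS_stmt) (hEV : EV_stmt) (A B C U W m ac au cu : ℂ)
    (h : AccS (G5 A B C U W m ac (-I) au cu (-I) (-I)) {0, 1, 2, 3, 4}) :
    phS (G5 A B C U W m ac (-I) au cu (-I) (-I)) {0, 1, 2, 3, 4} = arg B + arg (W + 1 / B) +
      ph3 (A - m ^ 2 / B - (I * m / B) ^ 2 / (W + 1 / B)) (C + 1 / B - (-I + 1 / B) ^ 2 / (W + 1 / B)) U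
      (ac + I * m / B - (I * m / B) * (-I + 1 / B) / (W + 1 / B)) au cu := by
  have e1 : ({0, 1, 2, 3, 4} : Finset ℕ) = insert 1 {0, 2, 3, 4} := by decide
  have e2 : ({0, 2, 3, 4} : Finset ℕ) = insert 4 {0, 2, 3} := by decide
  rw [e1] at h ⊢
  obtain ⟨_, h2, h3, _⟩ := hPHS _ {0, 2, 3, 4} 1 (by decide) h
  rw [e2] at h2
  obtain ⟨_, h5, h6, _⟩ := hPHS _ {0, 2, 3} 4 (by decide) h2
  rw [N3_44] at h6
  obtain ⟨k1, k2, k3, k4, k5⟩ := N3_3 A B C U W m ac au cu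
  have h8 := hEV.2 _ 0 2 3 (by decide) (by decide) (by decide) (by rw [N3_02, N3_20]) (by rw [k2, k3])
    (by rw [k4, k5]) h5
  rw [N3_00, N3_22, N3_02, k1, k2, k4] at h8
  rw [h3, e2, h6, h8]
  show arg B + _ = _
  ring

lemma N3_good2 {f : ℝ} {A B m : ℂ} (h : Good2 f A B m) {p q : ℝ} (hp : 0 ≤ p) (hq : 0 ≤ q) :
    Good2 f (A + p) (B + q) m := by
  intro p' q' hp' hq'
  have h1 := h (p + p') (q + q') (by linarith) (by linarith)
  push_cast at h1
  rw [← add_assoc, ← add_assoc] at h1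
  exact h1

lemma N3_good3 {f : ℝ} {A B m : ℂ} {a : ℝ} (h : Good3 f A B m a) {p q : ℝ} (hp : 0 ≤ p) (hq : 0 ≤ q) :
    Good3 f (A + p) (B + q) m a := by
  intro p' q' T' hp' hq' hT'
  have h1 := h (p + p') (q + q') T' (by linarith) (by linarith) hT'
  push_cast at h1
  rw [← add_assoc, ← add_assoc] at h1
  exact h1

lemma N3_acc2 (hA2P : A2P_stmt) {A B m : ℂ} (h : Acc2 A B m) {p q : ℝ} (hp : 0 ≤ p) (hq : 0 ≤ q) :
    Acc2 (A + p) (B + q) m := by
  have h1 := hA2P.1 A B m p q 0 h ⟨by simpa using hp, by simpa using hq, by simpa using mul_nonneg hp hq⟩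
  rwa [add_zero] at h1

/-- accretivity of the five vertex structure -/
lemma N3_acc5 (hACG : ACG_stmt) {A B m : ℂ} (h : Acc2 A B m) {C U W : ℝ} (hC : 0 < C) (hU : 0 < U) (hW : 0 < W)
    (ac au cu : ℂ) (h1 : ac.re = 0) (h2 : au.re = 0) (h3 : cu.re = 0) :
    AccS (G5 A B C U W m ac (-I) au cu (-I) (-I)) {0, 1, 2, 3, 4} := by
  have h4 := hACG A B m 0 0 0 C U W ac (-I) au cu (-I) (-I) h ⟨by simp, by simp, by simp⟩ hC hU hW h1
    (by simp) h2 h3 (by simp) (by simp)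
  rw [add_zero, add_zero, zero_add] at h4
  exact h4

theorem N3 (hPHS : PHS_stmt) (hPHE : PHE_stmt) (hEV : EV_stmt) (hA2P : A2P_stmt) (hACG : ACG_stmt) (hS2 : S2_stmt) (hS3 : S3_stmt) (hS5 : S5_stmt) : N3_stmt := by
  intro s p q T W a lt' hacc hg2 hg2' hg3 ha hp hq haT hW hroot
  have hT : 0 < T := lt_of_lt_of_le ha haT
  have hsub : ({0, 1, 2, 4} : Finset ℕ) ⊆ {0, 1, 2, 3, 4} := by decide
  have hB0 : ((1 : ℝ) : ℂ) = 1 := by norm_num
  -- general facts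
  have hA' : ∀ p' : ℝ, 0 ≤ p' → Acc2 (s.A + (p + p' : ℝ)) (s.B + q) s.m := fun p' hp' =>
    N3_acc2 hA2P hacc (by linarith) hq
  have hF : ∀ (p' q' : ℝ) (ac : ℂ), 0 ≤ p' → 0 ≤ q' → ac.re = 0 →
      AccS (G5 (s.A + (p + p' : ℝ)) (s.B + q) (T + q' : ℝ) 1 W s.m ac (-I) 0 0 (-I) (-I)) {0, 1, 2, 4} := by
    intro p' q' ac hp' hq' hac
    have h1 := N3_acc5 hACG (hA' p' hp') (C := T + q') (U := 1) (W := W) (by linarith) one_pos hW ac 0 0 hac
      (by simp) (by simp)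
    rw [hB0] at h1
    exact hPHE.2.2.2.2 _ _ _ hsub h1
  -- the two port phase
  have key : ∀ (p' q' : ℝ) (ac : ℂ), 0 ≤ p' → 0 ≤ q' → ac.re = 0 →
      (s1w s p q T W).ph + ph2 ((s1w s p q T W).A + p') ((s1w s p q T W).B + q')
        (ac + I * s.m / (s.B + q) - (I * s.m / (s.B + q)) * (-I + 1 / (s.B + q)) / (W + 1 / (s.B + q))) =
      s.ph + phS (G5 (s.A + (p + p' : ℝ)) (s.B + q) (T + q' : ℝ) 1 W s.m ac (-I) 0 0 (-I) (-I)) {0, 1, 2, 4} := by
    intro p' q' ac hp' hq' hac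
    rw [(N3_elim4 hPHS hEV hA2P _ _ _ _ _ _ _ _ _ (hF p' q' ac hp' hq' hac)).2]
    have e1 : (s1w s p q T W).A + p' = s.A + (p + p' : ℝ) - s.m ^ 2 / (s.B + q) -
        (I * s.m / (s.B + q)) ^ 2 / (W + 1 / (s.B + q)) := by
      unfold s1w; push_cast; ring
    have e2 : (s1w s p q T W).B + q' = (T + q' : ℝ) + 1 / (s.B + q) -
        (-I + 1 / (s.B + q)) ^ 2 / (W + 1 / (s.B + q)) := by
      unfold s1w; push_cast; ring
    rw [e1, e2]
    unfold s1w
    ring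
  refine ⟨?_, ?_, ?_⟩
  · have h1 := (N3_elim4 hPHS hEV hA2P _ _ _ _ _ _ _ _ _ (hF 0 0 (-I) le_rfl le_rfl (by simp))).1
    rw [add_zero, add_zero] at h1
    exact h1
  · intro p' q' hp' hq'
    have h1 := key p' q' (-I) hp' hq' (by simp)
    have h2 : (s1w s p q T W).m = -I + I * s.m / (s.B + q) - (I * s.m / (s.B + q)) * (-I + 1 / (s.B + q)) / (W + 1 / (s.B + q)) := rfl
    rw [h2, h1]
    have h3 := (hS3 s.ph (s.A + (p + p' : ℝ)) (s.B + q) s.m (T + q') W (hA' p' hp') (by linarith) hW).2.2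
      (N3_good2 hg2' (by linarith) hq)
      (by
        have h4 := hg3 (p + p') q (T + q') (by linarith) hq (by linarith)
        exact h4)
    exact h3.2
  · intro y hy
    rcases hroot with h0 | ⟨h1, hW1, ha1⟩
    · rw [h0] at hy; exact absurd hy (by simp)
    · have hy1 : y = 1 := by
        rw [h1] at hy
        exact (Option.some.inj hy).symm
      subst hy1
      constructor
      · intro p' q' hp' hq'
        have h2 := key p' q' 0 hp' hq' (by simp)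
        have h3 : (s1w s p q T W).m + I = 0 + I * s.m / (s.B + q) - (I * s.m / (s.B + q)) * (-I + 1 / (s.B + q)) / (W + 1 / (s.B + q)) := by
          unfold s1w; ring
        rw [h3, h2]
        exact (hS2 s.ph (s.A + (p + p' : ℝ)) (s.B + q) s.m (T + q') W (hA' p' hp')
          (N3_good2 hg2 (by linarith) hq) (by linarith) hW).1
      · intro p' q' T' hp' hq' hT'
        have hF5 := N3_acc5 hACG (hA' p' hp') (C := T + q') (U := T') (W := W) (by linarith) (by linarith) hW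
          (-I) (-I) (-I) (by simp) (by simp) (by simp)
        have h2 := N3_elim5 hPHS hEV _ _ _ _ _ _ _ _ _ hF5
        have h3 := hS5 s.ph (s.A + (p + p' : ℝ)) (s.B + q) s.m a (T + q') T' W (hA' p' hp')
          (N3_good2 hg2 (by linarith) hq) (N3_good2 hg2' (by linarith) hq) ha ha1
          (N3_good3 hg3 (by linarith) hq) (by linarith) hT' hW1
        rw [h2] at h3
        have e1 : (s1w s p q T W).A + p' = s.A + (p + p' : ℝ) - s.m ^ 2 / (s.B + q) -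
            (I * s.m / (s.B + q)) ^ 2 / (W + 1 / (s.B + q)) := by
          unfold s1w; push_cast; ring
        have e2 : (s1w s p q T W).B + q' = (T + q' : ℝ) + 1 / (s.B + q) -
            (-I + 1 / (s.B + q)) ^ 2 / (W + 1 / (s.B + q)) := by
          unfold s1w; push_cast; ring
        rw [e1, e2]
        have e3 : (s1w s p q T W).ph = s.ph + arg (s.B + q) + arg (W + 1 / (s.B + q)) := rfl
        have e4 : (s1w s p q T W).m = -I + I * s.m / (s.B + q) - (I * s.m / (s.B + q)) * (-I + 1 / (s.B + q)) / (W + 1 / (s.B + q)) := rfl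
        rw [e3, e4]
        linarith

end Pool.Agent.MO
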